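import Pool.Agent.TH540.Voisin

/-!
# Voisin's conjecture on exterior products of zero-cycles for Fermat varieties and their quotients

Let `X` be the Fermat hypersurface `x_1 ^ m + ... + x_n ^ m = 0` of dimension `d = n - 2` over the complex
numbers. Its primitive motive is (with coefficients in the `m`-th cyclotomic field) the sum of
motives `V(a)` of rank one, where `a : Fin n → ZMod m` has nonzero values and sum zero
(`IsCharacter`). The lines `V(a)` with `height m n a = m` give the holomorphic `d`-forms.

Let `A` be a set of such `a` which is closed under multiplication by the units modulo `m`. Example: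
`G` is a group of automorphisms `x_i ↦ ζ ^ {g_i} x_i` and `A` is the set of all `a` which are trivial on
`G`. Then the `V(a)`, `a` in `A`, make up the primitive motive of `X / G`, and the geometric genus `p` of
a resolution `Y` of `X / G` is the number of elements of `A` of height `m`. Moreover
`CH_0(Y ^ k) = CH_0((X / G) ^ k)`, and the zero-cycles of degree zero on `Y` form the sum of the
`CH_0(V(a))`, `a` in `A`.

By Shioda and Katsura `V(b_1) ⊗ ... ⊗ V(b_k)` is `M(-1)` for a direct summand `M` of the motive of a
product of `k + 1` Fermat varieties of total dimension `k d - 2` if the `k n` entries of `b_1, ..., b_k`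
can be divided into `k + 1` nonempty blocks with sum zero. Then it has no zero-cycles.

The first part says: if `m + 3 ≤ 2 n` (that is `m ≤ 2 d + 1`) and `k > p`, then this is the case for all
pairwise different `b_1, ..., b_k` in `A`. On `V(a) ⊗ V(a)` the two factors are exchanged by `(-1) ^ d`,
since `V(a)` has rank one, is finite-dimensional (Kimura) and has parity `d`. So
`∑ ε(σ) z_{σ 1} × ... × z_{σ k} = 0` in `CH_0(Y ^ k)` for all zero-cycles `z_i` of degree zero, where
`σ` runs through the permutations and `ε(σ)` is the sign of `σ` if `d` is even and `1` if `d` is odd. For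
`p = 1` and `k = 2` this is `z × z' = (-1) ^ d z' × z`.

The second part is the case of the Calabi-Yau hypersurfaces `m = n ≥ 3`, where `p = 1`.
-/

namespace Pool.Agent.Results.MP_ef4640_ag.FermatVarieties

/-- `a` is a character of the primitive cohomology of the Fermat hypersurface of degree `m` in `n`
variables. -/
def IsCharacter (m n : ℕ) (a : Fin n → ZMod m) : Prop := (∀ i, a i ≠ 0) ∧ ∑ i, a i = 0

/-- The sum of the representatives in `{1, ..., m - 1}`. -/
def height (m n : ℕ) (a : Fin n → ZMod m) : ℕ := ∑ i, (a i).val

/-- The entries of `b 0, ..., b (k - 1)` can be divided into `l` nonempty blocks with sum zero. -/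
def Blocks (m n k l : ℕ) (b : Fin k → Fin n → ZMod m) : Prop :=
  ∃ f : Fin k × Fin n → Fin l, Function.Surjective f ∧ ∀ j, ∑ x with f x = j, b x.1 x.2 = 0

theorem result :
    (∀ (m n k : ℕ) (A : Set (Fin n → ZMod m)), 1 ≤ m → m + 3 ≤ 2 * n →
      (∀ a ∈ A, IsCharacter m n a) →
      (∀ a ∈ A, ∀ t : (ZMod m)ˣ, (fun i => (t : ZMod m) * a i) ∈ A) →
      {a ∈ A | height m n a = m}.ncard < k →
      ∀ b : Fin k → Fin n → ZMod m, (∀ i, b i ∈ A) → Function.Injective b →
        Blocks m n k (k + 1) b) ∧
    (∀ m : ℕ, 3 ≤ m → ∀ a a' : Fin m → ZMod m, IsCharacter m m a → IsCharacter m m a' → a ≠ a' →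
      Blocks m m 2 3 ![a, a']) := by
  have first : ∀ (m n k : ℕ) (A : Set (Fin n → ZMod m)), 1 ≤ m → m + 3 ≤ 2 * n →
      (∀ a ∈ A, IsCharacter m n a) →
      (∀ a ∈ A, ∀ t : (ZMod m)ˣ, (fun i => (t : ZMod m) * a i) ∈ A) →
      {a ∈ A | height m n a = m}.ncard < k →
      ∀ b : Fin k → Fin n → ZMod m, (∀ i, b i ∈ A) → Function.Injective b →
        Blocks m n k (k + 1) b := by
    intro m n k A hm hn hA hu hk b hb hinj
    have hz : NeZero m := ⟨by omega⟩
    exact TH540.SC.surj_of_splits (TH540.SC.family hn hA hu hb hinj hk)
  refine ⟨first, ?_⟩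
  intro m hm a a' ha ha' hne
  have hz : NeZero m := ⟨by omega⟩
  have hm1 : Fact (1 < m) := ⟨by omega⟩
  apply first m m 2 {a | IsCharacter m m a} (by omega) (by omega) (fun a ha => ha)
  · intro a ha t
    refine ⟨fun i h => ha.1 i ((Units.mul_right_inj t).mp (by rw [mul_zero]; exact h)), ?_⟩
    rw [← Finset.mul_sum, ha.2, mul_zero]
  · have hsub : {a ∈ {a | IsCharacter m m a} | height m m a = m} ⊆ {fun _ => (1 : ZMod m)} := by
      rintro a ⟨ha, hh⟩
      rw [Set.mem_singleton_iff]
      funext i
      have h1 : ∀ i ∈ (Finset.univ : Finset (Fin m)), 1 ≤ (a i).val := by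
        intro i _
        rw [Nat.one_le_iff_ne_zero, Ne, ZMod.val_eq_zero]
        exact ha.1 i
      have h2 : ∑ i : Fin m, 1 = ∑ i : Fin m, (a i).val := by
        rw [show ∑ i : Fin m, (a i).val = m from hh]
        simp
      have h3 := (Finset.sum_eq_sum_iff_of_le h1).mp h2 i (Finset.mem_univ i)
      have h4 := ZMod.natCast_zmod_val (a i)
      rw [← h3, Nat.cast_one] at h4
      exact h4.symm
    have := Set.ncard_le_ncard hsub (Set.toFinite _)
    rw [Set.ncard_singleton] at this
    omega
  · intro i
    fin_cases i
    · exact ha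
    · exact ha'
  · intro i j hij
    fin_cases i <;> fin_cases j
    · rfl
    · exact absurd hij hne
    · exact absurd hij.symm hne
    · rfl

end Pool.Agent.Results.MP_ef4640_ag.FermatVarieties
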